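import Pool.Agent.H90.RG.Targets

/-!
Board reg_modules (MP_2697e3_an), row G_ZCV: change of variables.
-/

set_option autoImplicit false

open MeasureTheory Metric Set Filter Topology Pool.Agent.H87.SN Pool.Agent.H90.RG
open scoped ContDiff RealInnerProductSpace ENNReal

namespace Pool.Agent.H97.RG

private lemma zt_emb {n : ℕ} (c : E n) (r : ℝ) (hr : 0 < r) : MeasurableEmbedding (zt c r) :=
  ((Homeomorph.smulOfNeZero r hr.ne').trans (Homeomorph.addLeft c)).measurableEmbedding

private lemma zt_map {n : ℕ} (c : E n) (r : ℝ) (hr : 0 < r) :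
    Measure.map (zt c r) (volume : Measure (E n)) =
      ENNReal.ofReal ((r ^ n)⁻¹) • (volume : Measure (E n)) := by
  have h1 : zt c r = (fun x : E n => c + x) ∘ fun x : E n => r • x := rfl
  rw [h1, ← Measure.map_map (measurable_const_add c) (measurable_const_smul r),
    Measure.map_addHaar_smul _ hr.ne', Measure.map_smul, map_add_left_eq_self,
    abs_of_pos (by positivity), finrank_euclideanSpace_fin]

private lemma zt_restrict {n : ℕ} (c : E n) (r : ℝ) (hr : 0 < r) (S : Set (E n)) :
    Measure.map (zt c r) ((volume : Measure (E n)).restrict (zt c r ⁻¹' S)) =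
      ENNReal.ofReal ((r ^ n)⁻¹) • ((volume : Measure (E n)).restrict S) := by
  rw [← (zt_emb c r hr).restrict_map, zt_map c r hr, Measure.restrict_smul]

/-- Change of variables. -/
theorem pf_ZCV : T_ZCV := by
  intro n c r hr
  have hpos : 0 < (r ^ n)⁻¹ := by positivity
  have hne : ENNReal.ofReal ((r ^ n)⁻¹) ≠ 0 := (ENNReal.ofReal_pos.2 hpos).ne'
  have hnt : ENNReal.ofReal ((r ^ n)⁻¹) ≠ ⊤ := ENNReal.ofReal_ne_top
  have he := zt_emb c r hr
  refine ⟨?_, ?_, ?_, ?_, ?_⟩
  · intro F _ _ f S _
    rw [← he.integral_map f (μ := volume.restrict (zt c r ⁻¹' S)), zt_restrict c r hr S,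
      integral_smul_measure, ENNReal.toReal_ofReal hpos.le]
  · intro f S _
    rw [← he.lintegral_map f (μ := volume.restrict (zt c r ⁻¹' S)), zt_restrict c r hr S,
      lintegral_smul_measure, smul_eq_mul]
  · intro y s
    ext z
    have h1 : zt c r z - zt c r y = r • (z - y) := by
      unfold zt
      rw [smul_sub]
      abel
    rw [mem_preimage, mem_ball, mem_ball, dist_eq_norm, dist_eq_norm, h1, norm_smul,
      Real.norm_eq_abs, abs_of_pos hr, mul_lt_mul_iff_right₀ hr]
  · intro F _ _ f S _
    refine ⟨fun hf => ?_, ?_⟩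
    · have h1 : MemLp f 2 (Measure.map (zt c r)
          ((volume : Measure (E n)).restrict (zt c r ⁻¹' S))) := by
        rw [zt_restrict c r hr S]
        exact hf.smul_measure hnt
      exact he.memLp_map_measure_iff.1 h1
    · unfold IntegrableOn
      rw [← integrable_smul_measure hne hnt, ← zt_restrict c r hr S, he.integrable_map_iff]
      rfl
  · intro P S _
    rw [← Measure.ae_ennreal_smul_measure_iff hne, ← zt_restrict c r hr S, he.ae_map_iff]

end Pool.Agent.H97.RG
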